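import Pool.Agent.L7h70.GC.Stm
import Pool.Agent.L7h43.MW.Kern

/-! Project GC (helper70): mean square over the coefficient (`S_MSA`). -/

set_option autoImplicit false

namespace Pool.Agent.L7h22.GC

open Finset MeasureTheory Filter
open Pool.Agent.L7h43.MW (ee)
open Pool.Agent.L7h70.GC

lemma ee_eq (x : ℝ) : ee x = Complex.exp (((2 * Real.pi * x : ℝ) : ℂ) * Complex.I) := by
  unfold ee
  congr 1
  push_cast
  ring

/-- the square of an exponential sum -/
lemma sq_sum (X : Finset ℕ) (ψ : ℕ → ℝ) : ‖∑ x ∈ X, ee (ψ x)‖ ^ 2 =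
    ∑ x ∈ X, ∑ y ∈ X, Real.cos (2 * Real.pi * (ψ x - ψ y)) := by
  have h1 : ((‖∑ x ∈ X, ee (ψ x)‖ ^ 2 : ℝ) : ℂ) =
      ∑ x ∈ X, ∑ y ∈ X, Complex.exp (((2 * Real.pi * (ψ x - ψ y) : ℝ) : ℂ) * Complex.I) := by
    rw [← Complex.normSq_eq_norm_sq, ← Complex.mul_conj, map_sum, sum_mul_sum]
    refine sum_congr rfl fun x _ => sum_congr rfl fun y _ => ?_
    rw [ee_eq, ee_eq, ← Complex.exp_conj, map_mul, Complex.conj_I, Complex.conj_ofReal,
      ← Complex.exp_add]
    congr 1
    push_cast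
    ring
  have h2 := congrArg Complex.re h1
  rw [Complex.ofReal_re, Complex.re_sum] at h2
  rw [h2]
  refine sum_congr rfl fun x _ => ?_
  rw [Complex.re_sum]
  refine sum_congr rfl fun y _ => ?_
  rw [Complex.exp_ofReal_mul_I_re]

lemma mem_XX {n : ℝ} (hn : 0 ≤ n) {x : ℕ} (hx : x ∈ XX n) : n < x ∧ (x : ℝ) ≤ 4 * n := by
  unfold XX at hx
  rw [mem_Ioc, Nat.floor_lt hn, Nat.le_floor_iff (by positivity)] at hx
  exact hx

lemma card_XX {n : ℝ} (hn : 0 ≤ n) : ((XX n).card : ℝ) ≤ 4 * n := by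
  unfold XX
  rw [Nat.card_Ioc]
  have h1 : (⌊4 * n⌋₊ : ℝ) ≤ 4 * n := Nat.floor_le (by positivity)
  have h2 : ((⌊4 * n⌋₊ - ⌊n⌋₊ : ℕ) : ℝ) ≤ (⌊4 * n⌋₊ : ℝ) := by exact_mod_cast Nat.sub_le _ _
  linarith

lemma harm_le (N : ℕ) : ∑ d ∈ Icc 1 N, 1 / (d : ℝ) ≤ 1 + Real.log N := by
  have h3 := harmonic_le_one_add_log N
  rw [harmonic_eq_sum_Icc] at h3
  push_cast at h3
  simpa [one_div] using h3

/-- sum of the inverse differences -/
lemma harm_diff (X : Finset ℕ) (N x : ℕ) (hN : 1 ≤ N) (hX : ∀ y ∈ X, y ≤ N) (hx : x ≤ N) (t : ℝ)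
    (ht : (N : ℝ) ≤ t) :
    ∑ y ∈ X.erase x, 1 / |(x : ℝ) - y| ≤ 2 * (1 + Real.log t) := by
  have hNt : Real.log N ≤ Real.log t := Real.log_le_log (by exact_mod_cast hN) ht
  have h1 : ∑ y ∈ (X.erase x).filter (fun y => y < x), 1 / |(x : ℝ) - y| ≤ 1 + Real.log N := by
    refine le_trans ?_ (harm_le N)
    have e1 : ∑ y ∈ (X.erase x).filter (fun y => y < x), 1 / |(x : ℝ) - y| =
        ∑ y ∈ (X.erase x).filter (fun y => y < x), 1 / ((x - y : ℕ) : ℝ) := by
      apply sum_congr rfl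
      intro y hy
      rw [mem_filter] at hy
      have : (y : ℝ) < x := by exact_mod_cast hy.2
      rw [Nat.cast_sub hy.2.le, abs_of_pos (by linarith)]
    rw [e1, ← sum_image (f := fun d : ℕ => 1 / (d : ℝ)) (g := fun y => x - y) (s :=
      (X.erase x).filter (fun y => y < x))]
    · apply sum_le_sum_of_subset_of_nonneg
      · intro d hd
        rw [mem_image] at hd
        obtain ⟨y, hy, rfl⟩ := hd
        rw [mem_filter] at hy
        rw [mem_Icc]
        omega
      · intro d _ _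
        positivity
    · intro y hy z hz h
      rw [mem_coe, mem_filter] at hy hz
      simp only at h
      omega
  have h2 : ∑ y ∈ (X.erase x).filter (fun y => ¬ y < x), 1 / |(x : ℝ) - y| ≤ 1 + Real.log N := by
    refine le_trans ?_ (harm_le N)
    have e1 : ∑ y ∈ (X.erase x).filter (fun y => ¬ y < x), 1 / |(x : ℝ) - y| =
        ∑ y ∈ (X.erase x).filter (fun y => ¬ y < x), 1 / ((y - x : ℕ) : ℝ) := by
      apply sum_congr rfl
      intro y hy
      rw [mem_filter, mem_erase] at hy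
      have h0 : x < y := by omega
      have : (x : ℝ) < y := by exact_mod_cast h0
      rw [Nat.cast_sub h0.le, abs_of_neg (by linarith), neg_sub]
    rw [e1, ← sum_image (f := fun d : ℕ => 1 / (d : ℝ)) (g := fun y => y - x) (s :=
      (X.erase x).filter (fun y => ¬ y < x))]
    · apply sum_le_sum_of_subset_of_nonneg
      · intro d hd
        rw [mem_image] at hd
        obtain ⟨y, hy, rfl⟩ := hd
        rw [mem_filter, mem_erase] at hy
        have := hX y hy.1.2
        rw [mem_Icc]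
        omega
      · intro d _ _
        positivity
    · intro y hy z hz h
      rw [mem_coe, mem_filter, mem_erase] at hy hz
      simp only at h
      omega
  rw [← sum_filter_add_sum_filter_not (X.erase x) (fun y => y < x)]
  linarith

/-- difference of powers -/
lemma pow_diff {n c : ℝ} (hn : 0 < n) (hc : 1 ≤ c) {x y : ℕ} (hx : n < x) (hy : n < y) :
    |(x : ℝ) - y| * n ^ (c - 1) ≤ |(x : ℝ) ^ c - (y : ℝ) ^ c| := by
  have key : ∀ u v : ℝ, n < v → v ≤ u → (u - v) * n ^ (c - 1) ≤ u ^ c - v ^ c := by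
    intro u v hv huv
    have hv0 : 0 < v := hn.trans hv
    have hu0 : 0 < u := hv0.trans_le huv
    have e1 : u ^ c = u * u ^ (c - 1) := by
      rw [← Real.rpow_one_add' hu0.le (by linarith)]; congr 1; ring
    have e2 : v ^ c = v * v ^ (c - 1) := by
      rw [← Real.rpow_one_add' hv0.le (by linarith)]; congr 1; ring
    have h1 : v ^ (c - 1) ≤ u ^ (c - 1) := Real.rpow_le_rpow hv0.le huv (by linarith)
    have h2 : n ^ (c - 1) ≤ v ^ (c - 1) := Real.rpow_le_rpow hn.le hv.le (by linarith)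
    have h3 : 0 ≤ n ^ (c - 1) := by positivity
    rw [e1, e2]
    nlinarith
  rcases le_total (y : ℝ) x with h | h
  · have h1 := key x y hy h
    rw [abs_of_nonneg (by linarith)]
    exact h1.trans (le_abs_self _)
  · have h1 := key y x hx h
    rw [abs_sub_comm, abs_sub_comm ((x : ℝ) ^ c), abs_of_nonneg (by linarith)]
    exact h1.trans (le_abs_self _)

lemma cos_int (b u v : ℝ) (hb : b ≠ 0) : |∫ a in u..v, Real.cos (b * a)| ≤ 2 / |b| := by
  rw [intervalIntegral.integral_comp_mul_left (fun x => Real.cos x) hb, integral_cos, smul_eq_mul,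
    abs_mul, abs_inv]
  have h1 : |Real.sin (b * v) - Real.sin (b * u)| ≤ 2 := by
    have h2 := Real.abs_sin_le_one (b * v)
    have h3 := Real.abs_sin_le_one (b * u)
    calc |Real.sin (b * v) - Real.sin (b * u)| ≤ |Real.sin (b * v)| + |Real.sin (b * u)| :=
          abs_sub _ _
      _ ≤ 2 := by linarith
  rw [div_eq_inv_mul]
  exact mul_le_mul_of_nonneg_left h1 (by positivity)

theorem s_MSA : S_MSA := by
  intro c A m δ hc hA hm hδ
  have hlog4 : 0 ≤ Real.log (4 * A) := Real.log_nonneg (by linarith)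
  refine ⟨4 * (m + 2 * (1 + Real.log (4 * A))), by positivity, ?_⟩
  intro H hH ξ hξ1 hξ2
  have hH0 : 0 < H := by linarith
  have hξ0 : 0 < ξ := lt_of_lt_of_le (by positivity) hξ1
  have hc0 : 0 < c := by linarith
  have hpi := Real.pi_gt_three
  set n : ℝ := A * H ^ (1 / c) with hn
  have hHc : 1 ≤ H ^ (1 / c) := Real.one_le_rpow hH (by positivity)
  have hn1 : 1 ≤ n := by
    rw [hn]; nlinarith
  have hn0 : 0 < n := by linarith
  have hlogH : 0 ≤ Real.log H := Real.log_nonneg hH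
  -- n^c >= H
  have hnc : H ≤ n ^ c := by
    rw [hn, Real.mul_rpow (by linarith) (by positivity), ← Real.rpow_mul hH0.le]
    have e1 : 1 / c * c = 1 := by field_simp
    rw [e1, Real.rpow_one]
    have : 1 ≤ A ^ c := Real.one_le_rpow hA hc0.le
    nlinarith
  have hnc1 : n ^ c = n * n ^ (c - 1) := by
    rw [← Real.rpow_one_add' hn0.le (by linarith)]; congr 1; ring
  have hnp : 0 < n ^ (c - 1) := by positivity
  -- the integral is real
  set u : ℝ := 1 / m with hu
  have hum : u ≤ m := by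
    rw [hu, div_le_iff₀ (by linarith)]; nlinarith
  have hu0 : 0 < u := by rw [hu]; positivity
  have hSS : ∀ a, ‖SS n a c ξ‖ ^ 2 = ∑ x ∈ XX n, ∑ y ∈ XX n,
      Real.cos ((2 * Real.pi * ξ * ((x : ℝ) ^ c - (y : ℝ) ^ c)) * a) := by
    intro a
    unfold SS
    rw [sq_sum]
    refine sum_congr rfl fun x _ => sum_congr rfl fun y _ => ?_
    congr 1
    ring
  have hcont : Continuous fun a => ‖SS n a c ξ‖ ^ 2 := by
    simp_rw [hSS]
    fun_prop
  have hint : ∫⁻ a in Set.Icc u m, ENNReal.ofReal (‖SS n a c ξ‖ ^ 2) =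
      ENNReal.ofReal (∫ a in u..m, ‖SS n a c ξ‖ ^ 2) := by
    rw [intervalIntegral.integral_of_le hum, ← integral_Icc_eq_integral_Ioc,
      ofReal_integral_eq_lintegral_ofReal hcont.integrableOn_Icc
        (Filter.Eventually.of_forall fun a => by positivity)]
  rw [hint]
  apply ENNReal.ofReal_le_ofReal
  -- expansion
  have hexp : ∫ a in u..m, ‖SS n a c ξ‖ ^ 2 = ∑ x ∈ XX n, ∑ y ∈ XX n, ∫ a in u..m,
      Real.cos ((2 * Real.pi * ξ * ((x : ℝ) ^ c - (y : ℝ) ^ c)) * a) := by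
    simp_rw [hSS]
    rw [intervalIntegral.integral_finsetSum]
    · refine sum_congr rfl fun x _ => ?_
      rw [intervalIntegral.integral_finsetSum]
      intro y _
      apply Continuous.intervalIntegrable
      fun_prop
    · intro x _
      apply Continuous.intervalIntegrable
      fun_prop
  rw [hexp]
  -- one x
  have hone : ∀ x ∈ XX n, ∑ y ∈ XX n, ∫ a in u..m,
      Real.cos ((2 * Real.pi * ξ * ((x : ℝ) ^ c - (y : ℝ) ^ c)) * a) ≤
        m + 2 * (1 + Real.log (4 * n)) / (ξ * n ^ (c - 1)) := by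
    intro x hx
    have hx' := mem_XX hn0.le hx
    rw [← add_sum_erase (XX n) _ hx]
    apply add_le_add
    · simp only [sub_self, mul_zero, zero_mul, Real.cos_zero, intervalIntegral.integral_const,
        smul_eq_mul, mul_one]
      linarith
    · have hfl : (⌊4 * n⌋₊ : ℝ) ≤ 4 * n := Nat.floor_le (by positivity)
      have hfl1 : 1 ≤ ⌊4 * n⌋₊ := (Nat.one_le_floor_iff _).2 (by linarith)
      have hmemN : ∀ y ∈ XX n, y ≤ ⌊4 * n⌋₊ := by
        intro y hy
        unfold XX at hy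
        exact (mem_Ioc.1 hy).2
      have hh := harm_diff (XX n) ⌊4 * n⌋₊ x hfl1 hmemN (hmemN x hx) (4 * n) hfl
      have hterm : ∀ y ∈ (XX n).erase x, ∫ a in u..m,
          Real.cos ((2 * Real.pi * ξ * ((x : ℝ) ^ c - (y : ℝ) ^ c)) * a) ≤
          1 / |(x : ℝ) - y| * (1 / (ξ * n ^ (c - 1))) := by
        intro y hy
        rw [mem_erase] at hy
        have hy' := mem_XX hn0.le hy.2
        have hxy : (x : ℝ) - y ≠ 0 := by
          intro h
          apply hy.1
          have : (y : ℝ) = x := by linarith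
          exact_mod_cast this
        have habs : 0 < |(x : ℝ) - y| := abs_pos.2 hxy
        have hd := pow_diff hn0 hc hx'.1 hy'.1
        have hb : 2 * (ξ * (|(x : ℝ) - y| * n ^ (c - 1))) ≤
            |2 * Real.pi * ξ * ((x : ℝ) ^ c - (y : ℝ) ^ c)| := by
          rw [abs_mul, abs_of_pos (by positivity : 0 < 2 * Real.pi * ξ)]
          have h1 : ξ * (|(x : ℝ) - y| * n ^ (c - 1)) ≤ ξ * |(x : ℝ) ^ c - (y : ℝ) ^ c| :=
            mul_le_mul_of_nonneg_left hd hξ0.le
          have h2 : 0 ≤ ξ * |(x : ℝ) ^ c - (y : ℝ) ^ c| := by positivity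
          nlinarith
        have hbpos : 0 < 2 * (ξ * (|(x : ℝ) - y| * n ^ (c - 1))) := by positivity
        have hb0 : 2 * Real.pi * ξ * ((x : ℝ) ^ c - (y : ℝ) ^ c) ≠ 0 := by
          intro h
          rw [h, abs_zero] at hb
          linarith
        refine (le_abs_self _).trans ((cos_int _ u m hb0).trans ?_)
        calc 2 / |2 * Real.pi * ξ * ((x : ℝ) ^ c - (y : ℝ) ^ c)| ≤
              2 / (2 * (ξ * (|(x : ℝ) - y| * n ^ (c - 1)))) := by gcongr
          _ = 1 / |(x : ℝ) - y| * (1 / (ξ * n ^ (c - 1))) := by field_simp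
      calc ∑ y ∈ (XX n).erase x, ∫ a in u..m,
            Real.cos ((2 * Real.pi * ξ * ((x : ℝ) ^ c - (y : ℝ) ^ c)) * a)
          ≤ ∑ y ∈ (XX n).erase x, 1 / |(x : ℝ) - y| * (1 / (ξ * n ^ (c - 1))) := sum_le_sum hterm
        _ = (∑ y ∈ (XX n).erase x, 1 / |(x : ℝ) - y|) * (1 / (ξ * n ^ (c - 1))) := by
            rw [sum_mul]
        _ ≤ (2 * (1 + Real.log (4 * n))) * (1 / (ξ * n ^ (c - 1))) :=
            mul_le_mul_of_nonneg_right hh (by positivity)
        _ = 2 * (1 + Real.log (4 * n)) / (ξ * n ^ (c - 1)) := by ring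
  have hlog4n : 0 ≤ Real.log (4 * n) := Real.log_nonneg (by linarith)
  have htot : ∑ x ∈ XX n, ∑ y ∈ XX n, ∫ a in u..m,
      Real.cos ((2 * Real.pi * ξ * ((x : ℝ) ^ c - (y : ℝ) ^ c)) * a) ≤
        4 * n * (m + 2 * (1 + Real.log (4 * n)) / (ξ * n ^ (c - 1))) := by
    refine (sum_le_sum hone).trans ?_
    rw [sum_const, nsmul_eq_mul]
    exact mul_le_mul_of_nonneg_right (card_XX hn0.le) (by positivity)
  refine htot.trans ?_
  -- the powers
  have hξH : 1 ≤ ξ * H := by
    rw [div_le_iff₀ hH0] at hξ1; exact hξ1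
  set s : ℝ := 1 / (c * (1 + δ)) with hs
  have hs0 : 0 < s := by rw [hs]; positivity
  have hs1 : s ≤ 1 := by
    rw [hs, div_le_one (by positivity)]; nlinarith
  have hP1 : 1 / n ≤ (ξ * H) ^ (-s) := by
    rw [Real.rpow_neg (by positivity), ← one_div]
    apply one_div_le_one_div_of_le (by positivity)
    have h1 : (ξ * H) ^ s ≤ (H ^ (1 + δ)) ^ s := by
      apply Real.rpow_le_rpow (by positivity) _ hs0.le
      calc ξ * H ≤ H ^ δ * H := by gcongr
        _ = H ^ (1 + δ) := by rw [Real.rpow_add hH0, Real.rpow_one]; ring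
    have h2 : (H ^ (1 + δ)) ^ s = H ^ (1 / c) := by
      rw [← Real.rpow_mul hH0.le]
      congr 1
      rw [hs]
      field_simp
    rw [h2] at h1
    calc (ξ * H) ^ s ≤ H ^ (1 / c) := h1
      _ ≤ A * H ^ (1 / c) := by nlinarith
  have hP2 : 1 / (ξ * H) ≤ (ξ * H) ^ (-s) := by
    rw [one_div, ← Real.rpow_neg_one]
    exact Real.rpow_le_rpow_of_exponent_le hξH (by linarith)
  have hlogn : 1 + Real.log (4 * n) ≤ (1 + Real.log (4 * A)) * (1 + Real.log H) := by
    have e1 : 4 * n = (4 * A) * H ^ (1 / c) := by rw [hn]; ring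
    rw [e1, Real.log_mul (by positivity) (by positivity), Real.log_rpow hH0]
    have : 1 / c * Real.log H ≤ Real.log H := by
      have : 1 / c ≤ 1 := by rw [div_le_one hc0]; exact hc
      nlinarith
    nlinarith
  have hP0 : 0 < (ξ * H) ^ (-s) := by positivity
  have e2 : 4 * n * (m + 2 * (1 + Real.log (4 * n)) / (ξ * n ^ (c - 1))) =
      4 * n ^ 2 * (m * (1 / n) + 2 * (1 + Real.log (4 * n)) * (1 / (ξ * n ^ c))) := by
    rw [hnc1]; field_simp
  rw [e2]
  have h3 : 1 / (ξ * n ^ c) ≤ (ξ * H) ^ (-s) := by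
    refine le_trans ?_ hP2
    gcongr
  have h4 : m * (1 / n) + 2 * (1 + Real.log (4 * n)) * (1 / (ξ * n ^ c)) ≤
      m * (ξ * H) ^ (-s) + 2 * ((1 + Real.log (4 * A)) * (1 + Real.log H)) * (ξ * H) ^ (-s) := by
    have hm0 : 0 ≤ m := by linarith
    gcongr
  calc 4 * n ^ 2 * (m * (1 / n) + 2 * (1 + Real.log (4 * n)) * (1 / (ξ * n ^ c)))
      ≤ 4 * n ^ 2 * (m * (ξ * H) ^ (-s) +
        2 * ((1 + Real.log (4 * A)) * (1 + Real.log H)) * (ξ * H) ^ (-s)) := by gcongr
    _ = 4 * (m + 2 * (1 + Real.log (4 * A)) * (1 + Real.log H)) * n ^ 2 * (ξ * H) ^ (-s) := by ring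
    _ ≤ 4 * (m * (1 + Real.log H) + 2 * (1 + Real.log (4 * A)) * (1 + Real.log H)) * n ^ 2 *
        (ξ * H) ^ (-s) := by
        have hm0 : 0 ≤ m := by linarith
        have : m ≤ m * (1 + Real.log H) := by nlinarith
        gcongr
    _ = 4 * (m + 2 * (1 + Real.log (4 * A))) * (1 + Real.log H) * n ^ 2 * (ξ * H) ^ (-s) := by ring

end Pool.Agent.L7h22.GC
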