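import Pool.Agent.L7h22.GC.Msa

/-! Project GC (helper70): mean square over the exponent (`S_MSE`). -/

set_option autoImplicit false

namespace Pool.Agent.L7h22.GC

open Finset MeasureTheory Filter Topology
open Pool.Agent.L7h43.MW (ee)
open Pool.Agent.L7h70.GC

/-- first derivative test -/
lemma first_test {φ φ1 φ2 : ℝ → ℝ} {u v lam : ℝ} (huv : u ≤ v) (hlam : 0 < lam)
    (h1 : ∀ c, HasDerivAt φ (φ1 c) c) (h2 : ∀ c, HasDerivAt φ1 (φ2 c) c) (hc2 : Continuous φ2)
    (hp : ∀ c, u ≤ c → c ≤ v → lam ≤ φ1 c) (hn : ∀ c, u ≤ c → c ≤ v → 0 ≤ φ2 c) :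
    |∫ c in u..v, Real.cos (φ c)| ≤ 3 / lam := by
  have hc0 : Continuous φ := continuous_iff_continuousAt.2 fun c => (h1 c).continuousAt
  have hc1 : Continuous φ1 := continuous_iff_continuousAt.2 fun c => (h2 c).continuousAt
  have hpos : ∀ c ∈ Set.uIcc u v, 0 < φ1 c := by
    intro c hc
    rw [Set.uIcc_of_le huv] at hc
    exact hlam.trans_le (hp c hc.1 hc.2)
  have hne : ∀ c ∈ Set.uIcc u v, φ1 c ≠ 0 := fun c hc => (hpos c hc).ne'
  -- the two primitives
  have d1 : ∀ c ∈ Set.uIcc u v, HasDerivAt (fun c => Real.sin (φ c) / φ1 c)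
      (Real.cos (φ c) - Real.sin (φ c) * φ2 c / φ1 c ^ 2) c := by
    intro c hc
    have h := ((h1 c).sin).div (h2 c) (hne c hc)
    apply h.congr_deriv
    have := hne c hc
    field_simp
  have d2 : ∀ c ∈ Set.uIcc u v, HasDerivAt (fun c => -(1 / φ1 c)) (φ2 c / φ1 c ^ 2) c := by
    intro c hc
    have h := ((hasDerivAt_const c (1 : ℝ)).div (h2 c) (hne c hc)).neg
    apply h.congr_deriv
    have := hne c hc
    field_simp
    ring
  have k1 : ContinuousOn (fun c => Real.sin (φ c) * φ2 c / φ1 c ^ 2) (Set.uIcc u v) :=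
    ((Real.continuous_sin.comp hc0).mul hc2).continuousOn.div (hc1.pow 2).continuousOn
      fun c hc => pow_ne_zero 2 (hne c hc)
  have k2 : ContinuousOn (fun c => φ2 c / φ1 c ^ 2) (Set.uIcc u v) :=
    hc2.continuousOn.div (hc1.pow 2).continuousOn fun c hc => pow_ne_zero 2 (hne c hc)
  have hcos : Continuous fun c => Real.cos (φ c) := Real.continuous_cos.comp hc0
  have e1 := intervalIntegral.integral_eq_sub_of_hasDerivAt d1
    ((hcos.continuousOn.sub k1).intervalIntegrable)
  rw [intervalIntegral.integral_sub (hcos.intervalIntegrable _ _) k1.intervalIntegrable] at e1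
  have e2 := intervalIntegral.integral_eq_sub_of_hasDerivAt d2 k2.intervalIntegrable
  have b1 : |∫ c in u..v, Real.sin (φ c) * φ2 c / φ1 c ^ 2| ≤ ∫ c in u..v, φ2 c / φ1 c ^ 2 := by
    refine (intervalIntegral.abs_integral_le_integral_abs huv).trans ?_
    apply intervalIntegral.integral_mono_on huv k1.abs.intervalIntegrable k2.intervalIntegrable
    intro c hc
    have hp2 : 0 ≤ φ2 c := hn c hc.1 hc.2
    rw [abs_div, abs_mul, abs_of_nonneg hp2, abs_of_nonneg (sq_nonneg (φ1 c))]
    have := Real.abs_sin_le_one (φ c)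
    apply div_le_div_of_nonneg_right _ (sq_nonneg _)
    nlinarith
  have hu := hp u le_rfl huv
  have hv := hp v huv le_rfl
  have iu : 1 / φ1 u ≤ 1 / lam := one_div_le_one_div_of_le hlam hu
  have iv : 1 / φ1 v ≤ 1 / lam := one_div_le_one_div_of_le hlam hv
  have iv0 : 0 < 1 / φ1 v := by have := hlam.trans_le hv; positivity
  have su : |Real.sin (φ u) / φ1 u| ≤ 1 / lam := by
    rw [abs_div, abs_of_pos (hlam.trans_le hu)]
    refine le_trans ?_ iu
    exact div_le_div_of_nonneg_right (Real.abs_sin_le_one _) (hlam.trans_le hu).le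
  have sv : |Real.sin (φ v) / φ1 v| ≤ 1 / lam := by
    rw [abs_div, abs_of_pos (hlam.trans_le hv)]
    refine le_trans ?_ iv
    exact div_le_div_of_nonneg_right (Real.abs_sin_le_one _) (hlam.trans_le hv).le
  have e3 : ∫ c in u..v, Real.cos (φ c) = (Real.sin (φ v) / φ1 v - Real.sin (φ u) / φ1 u) +
      ∫ c in u..v, Real.sin (φ c) * φ2 c / φ1 c ^ 2 := by linarith
  rw [e3]
  calc |(Real.sin (φ v) / φ1 v - Real.sin (φ u) / φ1 u) +
        ∫ c in u..v, Real.sin (φ c) * φ2 c / φ1 c ^ 2|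
      ≤ |Real.sin (φ v) / φ1 v - Real.sin (φ u) / φ1 u| +
        |∫ c in u..v, Real.sin (φ c) * φ2 c / φ1 c ^ 2| := abs_add_le _ _
    _ ≤ (|Real.sin (φ v) / φ1 v| + |Real.sin (φ u) / φ1 u|) + ∫ c in u..v, φ2 c / φ1 c ^ 2 :=
        add_le_add (abs_sub _ _) b1
    _ ≤ (1 / lam + 1 / lam) + 1 / lam := by
        rw [e2]
        linarith
    _ = 3 / lam := by ring

/-- integrals over an order connected set -/
lemma int_ord {J : Set ℝ} (hJ : J.OrdConnected) {p q : ℝ} (hJs : J ⊆ Set.Icc p q)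
    (hne : J.Nonempty) (f : ℝ → ℝ) : ∃ u v, p ≤ u ∧ u ≤ v ∧ v ≤ q ∧ Set.Ioo u v ⊆ J ∧
      ∫ c in J, f c = ∫ c in u..v, f c := by
  have hbb : BddBelow J := ⟨p, fun c hc => (hJs hc).1⟩
  have hba : BddAbove J := ⟨q, fun c hc => (hJs hc).2⟩
  have huv : sInf J ≤ sSup J := csInf_le_csSup hne hbb hba
  have hsub : J ⊆ Set.Icc (sInf J) (sSup J) := fun c hc => ⟨csInf_le hbb hc, le_csSup hba hc⟩
  have hsup : Set.Ioo (sInf J) (sSup J) ⊆ J := by
    intro c hc
    obtain ⟨a, ha, hac⟩ := exists_lt_of_csInf_lt hne hc.1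
    obtain ⟨b, hb, hcb⟩ := exists_lt_of_lt_csSup hne hc.2
    exact hJ.out ha hb ⟨hac.le, hcb.le⟩
  refine ⟨sInf J, sSup J, le_csInf hne fun c hc => (hJs hc).1, huv,
    csSup_le hne fun c hc => (hJs hc).2, hsup, ?_⟩
  have hae : J =ᵐ[volume] Set.Ioc (sInf J) (sSup J) := by
    have l1 : J ≤ᵐ[volume] Set.Icc (sInf J) (sSup J) := Filter.Eventually.of_forall hsub
    have l2 : Set.Ioo (sInf J) (sSup J) ≤ᵐ[volume] J := Filter.Eventually.of_forall hsup
    apply Filter.EventuallyLE.antisymm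
    · exact l1.trans (Ioc_ae_eq_Icc).symm.le
    · exact (Ioo_ae_eq_Ioc).symm.le.trans l2
  rw [intervalIntegral.integral_of_le huv]
  exact setIntegral_congr_set hae

lemma mem_XX_iff {n : ℝ} (hn : 0 ≤ n) (x : ℕ) : x ∈ XX n ↔ n < x ∧ (x : ℝ) ≤ 4 * n := by
  unfold XX
  rw [mem_Ioc, Nat.floor_lt hn, Nat.le_floor_iff (by positivity)]

/-- the off-diagonal integrals -/
lemma off_diag {A H p q u v β : ℝ} (hp : 1 < p) (hA : 3 ≤ A) (hH : 1 ≤ H) (hβ : 0 < β)
    (hpu : p ≤ u) (huv : u ≤ v) (_hvq : v ≤ q) {x y : ℕ} (hyx : y < x)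
    (hJ : ∀ c, u < c → c < v → A * H ^ (1 / c) < y) :
    |∫ c in u..v, Real.cos (β * ((x : ℝ) ^ c - (y : ℝ) ^ c))| ≤
      3 / (β * (((x : ℝ) - y) * H ^ (1 - 1 / p))) := by
  have hH0 : 0 < H := by linarith
  have hyx' : (y : ℝ) < x := by exact_mod_cast hyx
  rcases huv.eq_or_lt with h | huv'
  · rw [h, intervalIntegral.integral_same, abs_zero]
    have : 0 < (x : ℝ) - y := by linarith
    positivity
  -- n(c) ≤ y on the closed interval
  have hle : ∀ c, u ≤ c → c ≤ v → A * H ^ (1 / c) ≤ y := by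
    intro c h1 h2
    have hanti : A * H ^ (1 / c) ≤ A * H ^ (1 / u) := by
      have : 1 / c ≤ 1 / u := one_div_le_one_div_of_le (by linarith) h1
      have := Real.rpow_le_rpow_of_exponent_le hH this
      gcongr
    refine hanti.trans ?_
    have hcont : ContinuousAt (fun c : ℝ => A * H ^ (1 / c)) u := by
      have h3 : ContinuousAt (fun c : ℝ => 1 / c) u :=
        continuousAt_const.div continuousAt_id (by linarith : u ≠ 0)
      exact continuousAt_const.mul (continuousAt_const.rpow h3 (Or.inl hH0.ne'))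
    have ht : Tendsto (fun c : ℝ => A * H ^ (1 / c)) (𝓝[>] u) (𝓝 (A * H ^ (1 / u))) :=
      hcont.tendsto.mono_left nhdsWithin_le_nhds
    apply le_of_tendsto ht
    filter_upwards [Ioo_mem_nhdsGT huv'] with c hc
    exact (hJ c hc.1 hc.2).le
  have hy3 : (3 : ℝ) ≤ y := by
    have h1 := hle u le_rfl huv
    have hu0 : 0 < u := by linarith
    have h2 : 1 ≤ H ^ (1 / u) := Real.one_le_rpow hH (by positivity)
    nlinarith
  have hy0 : (0 : ℝ) < y := by linarith
  have hx0 : (0 : ℝ) < x := by linarith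
  have hlogy : 1 ≤ Real.log y := by
    rw [Real.le_log_iff_exp_le hy0]
    have := Real.exp_one_lt_d9
    linarith
  have hlogxy : Real.log y ≤ Real.log x := Real.log_le_log hy0 hyx'.le
  have hlogx : 1 ≤ Real.log x := hlogy.trans hlogxy
  set φ : ℝ → ℝ := fun c => β * ((x : ℝ) ^ c - (y : ℝ) ^ c) with hφ
  set φ1 : ℝ → ℝ := fun c => β * ((x : ℝ) ^ c * Real.log x - (y : ℝ) ^ c * Real.log y) with hφ1
  set φ2 : ℝ → ℝ := fun c =>
    β * ((x : ℝ) ^ c * Real.log x * Real.log x - (y : ℝ) ^ c * Real.log y * Real.log y) with hφ2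
  have dx : ∀ c, HasDerivAt (fun c : ℝ => (x : ℝ) ^ c) ((x : ℝ) ^ c * Real.log x) c :=
    fun c => (Real.hasStrictDerivAt_const_rpow hx0 c).hasDerivAt
  have dy : ∀ c, HasDerivAt (fun c : ℝ => (y : ℝ) ^ c) ((y : ℝ) ^ c * Real.log y) c :=
    fun c => (Real.hasStrictDerivAt_const_rpow hy0 c).hasDerivAt
  have hxyc : ∀ c : ℝ, 0 ≤ c → (y : ℝ) ^ c ≤ (x : ℝ) ^ c :=
    fun c hc => Real.rpow_le_rpow hy0.le hyx'.le hc
  apply first_test (φ := φ) (φ1 := φ1) (φ2 := φ2) huv
  · have : 0 < (x : ℝ) - y := by linarith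
    positivity
  · intro c
    exact ((dx c).sub (dy c)).const_mul β
  · intro c
    exact (((dx c).mul_const _).sub ((dy c).mul_const _)).const_mul β
  · have h1 : Continuous fun c : ℝ => (x : ℝ) ^ c :=
      continuous_iff_continuousAt.2 fun c => (dx c).continuousAt
    have h2 : Continuous fun c : ℝ => (y : ℝ) ^ c :=
      continuous_iff_continuousAt.2 fun c => (dy c).continuousAt
    exact continuous_const.mul (((h1.mul continuous_const).mul continuous_const).sub
      ((h2.mul continuous_const).mul continuous_const))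
  · intro c hc1 hc2
    have hc0 : 1 < c := by linarith
    have hn := hle c hc1 hc2
    have e1 : (x : ℝ) ^ c = x * (x : ℝ) ^ (c - 1) := by
      rw [← Real.rpow_one_add' hx0.le (by linarith)]; congr 1; ring
    have e2 : (y : ℝ) ^ c = y * (y : ℝ) ^ (c - 1) := by
      rw [← Real.rpow_one_add' hy0.le (by linarith)]; congr 1; ring
    have h1 : (y : ℝ) ^ (c - 1) ≤ (x : ℝ) ^ (c - 1) :=
      Real.rpow_le_rpow hy0.le hyx'.le (by linarith)
    have h2 : H ^ (1 - 1 / p) ≤ (y : ℝ) ^ (c - 1) := by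
      have h3 : (H ^ (1 / c)) ^ (c - 1) ≤ (y : ℝ) ^ (c - 1) := by
        apply Real.rpow_le_rpow (by positivity) _ (by linarith)
        have : 0 < H ^ (1 / c) := by positivity
        nlinarith
      refine le_trans ?_ h3
      rw [← Real.rpow_mul hH0.le]
      apply Real.rpow_le_rpow_of_exponent_le hH
      have e3 : 1 / c * (c - 1) = 1 - 1 / c := by field_simp
      rw [e3]
      have : 1 / c ≤ 1 / p := one_div_le_one_div_of_le (by linarith) (by linarith)
      linarith
    have h4 : 0 ≤ H ^ (1 - 1 / p) := by positivity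
    have h5 : ((x : ℝ) - y) * H ^ (1 - 1 / p) ≤ (x : ℝ) ^ c - (y : ℝ) ^ c := by
      rw [e1, e2]
      nlinarith
    have h6 : (x : ℝ) ^ c - (y : ℝ) ^ c ≤ (x : ℝ) ^ c * Real.log x - (y : ℝ) ^ c * Real.log y := by
      have h7 := hxyc c (by linarith)
      have h8 : 0 ≤ (y : ℝ) ^ c := by positivity
      nlinarith
    exact mul_le_mul_of_nonneg_left (h5.trans h6) hβ.le
  · intro c hc1 _
    have h7 := hxyc c (by linarith)
    have h8 : 0 ≤ (y : ℝ) ^ c := by positivity
    have h9 : (y : ℝ) ^ c * Real.log y * Real.log y ≤ (x : ℝ) ^ c * Real.log x * Real.log x := by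
      gcongr
    have : 0 ≤ (x : ℝ) ^ c * Real.log x * Real.log x - (y : ℝ) ^ c * Real.log y * Real.log y := by
      linarith
    positivity

theorem s_MSE : S_MSE := by
  intro p q a A δ hp hpq ha hA hδ
  have hlog4 : 0 ≤ Real.log (4 * A) := Real.log_nonneg (by linarith)
  have hq0 : 0 < q := by linarith
  have hp0 : 0 < p := by linarith
  refine ⟨4 * ((q - p) + 2 * (1 + Real.log (4 * A)) / a), by
    have : 0 ≤ q - p := by linarith
    positivity, ?_⟩
  intro H hH ξ hξ1 hξ2
  have hH0 : 0 < H := by linarith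
  have hξ0 : 0 < ξ := lt_of_lt_of_le (by positivity) hξ1
  have hpi := Real.pi_gt_three
  have hA0 : 0 < A := by linarith
  set β : ℝ := 2 * Real.pi * ξ * a with hβ
  have hβ0 : 0 < β := by positivity
  have hlogH : 0 ≤ Real.log H := Real.log_nonneg hH
  -- monotonicity of the size
  have hanti : ∀ c c' : ℝ, 0 < c → c ≤ c' → A * H ^ (1 / c') ≤ A * H ^ (1 / c) := by
    intro c c' h1 h2
    have : 1 / c' ≤ 1 / c := one_div_le_one_div_of_le h1 h2
    have := Real.rpow_le_rpow_of_exponent_le hH this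
    gcongr
  have hnpos : ∀ c : ℝ, 0 < A * H ^ (1 / c) := fun c => by positivity
  set t : ℝ := 4 * (A * H ^ (1 / p)) with ht
  have hHp : 1 ≤ H ^ (1 / p) := Real.one_le_rpow hH (by positivity)
  have ht1 : 1 ≤ t := by rw [ht]; nlinarith
  set N : ℕ := ⌊t⌋₊ with hN
  have hN1 : 1 ≤ N := (Nat.one_le_floor_iff _).2 ht1
  have hNt : (N : ℝ) ≤ t := Nat.floor_le (by linarith)
  set J : ℕ → ℕ → Set ℝ := fun x y =>
    {c | c ∈ Set.Icc p q ∧ (A * H ^ (1 / c) < x ∧ (x : ℝ) ≤ 4 * (A * H ^ (1 / c))) ∧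
      (A * H ^ (1 / c) < y ∧ (y : ℝ) ≤ 4 * (A * H ^ (1 / c)))} with hJ
  have hJord : ∀ x y, (J x y).OrdConnected := by
    intro x y
    refine ⟨fun c1 h1 c2 h2 c hc => ?_⟩
    obtain ⟨i1, ⟨x1, x2⟩, ⟨y1, y2⟩⟩ := h1
    obtain ⟨j1, ⟨x3, x4⟩, ⟨y3, y4⟩⟩ := h2
    have k1 := hanti c1 c (by linarith [i1.1]) hc.1
    have k2 := hanti c c2 (by linarith [i1.1, hc.1]) hc.2
    exact ⟨⟨i1.1.trans hc.1, hc.2.trans j1.2⟩, ⟨by linarith, by linarith⟩, ⟨by linarith, by linarith⟩⟩
  have hJsub : ∀ x y, J x y ⊆ Set.Icc p q := fun x y c hc => hc.1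
  have hJm : ∀ x y, MeasurableSet (J x y) := fun x y => (hJord x y).measurableSet
  -- the square
  set f : ℕ → ℕ → ℝ → ℝ := fun x y c => Real.cos (β * ((x : ℝ) ^ c - (y : ℝ) ^ c)) with hf
  have hsq : ∀ c ∈ Set.Icc p q, ‖SS (A * H ^ (1 / c)) a c ξ‖ ^ 2 =
      ∑ x ∈ Icc 1 N, ∑ y ∈ Icc 1 N, (J x y).indicator (f x y) c := by
    intro c hc
    have hsubN : XX (A * H ^ (1 / c)) ⊆ Icc 1 N := by
      intro x hx
      rw [mem_XX_iff (hnpos c).le] at hx
      rw [mem_Icc, hN]
      constructor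
      · have h1 : (0 : ℝ) < x := (hnpos c).trans hx.1
        exact_mod_cast h1
      · apply Nat.le_floor
        have := hanti p c hp0 hc.1
        rw [ht]
        linarith [hx.2]
    unfold SS
    rw [sq_sum]
    have h1 : ∀ g : ℕ → ℝ, ∑ x ∈ XX (A * H ^ (1 / c)), g x =
        ∑ x ∈ Icc 1 N, if x ∈ XX (A * H ^ (1 / c)) then g x else 0 := by
      intro g
      rw [← sum_filter]
      congr 1
      ext x
      rw [mem_filter]
      exact ⟨fun h => ⟨hsubN h, h⟩, fun h => h.2⟩
    rw [h1]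
    apply sum_congr rfl
    intro x _
    by_cases hx : x ∈ XX (A * H ^ (1 / c))
    · rw [if_pos hx, h1]
      apply sum_congr rfl
      intro y _
      by_cases hy : y ∈ XX (A * H ^ (1 / c))
      · rw [if_pos hy]
        have hcJ : c ∈ J x y := by
          rw [mem_XX_iff (hnpos c).le] at hx hy
          exact ⟨hc, hx, hy⟩
        rw [Set.indicator_of_mem hcJ]
        simp only [hf, hβ]
        congr 1
        ring
      · rw [if_neg hy, Set.indicator_of_notMem]
        intro hcJ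
        apply hy
        rw [mem_XX_iff (hnpos c).le]
        exact hcJ.2.2
    · rw [if_neg hx]
      symm
      apply sum_eq_zero
      intro y _
      rw [Set.indicator_of_notMem]
      intro hcJ
      apply hx
      rw [mem_XX_iff (hnpos c).le]
      exact hcJ.2.1
  have hfc : ∀ x ∈ Icc 1 N, ∀ y ∈ Icc 1 N, Continuous (f x y) := by
    intro x hx y hy
    rw [mem_Icc] at hx hy
    have hx0 : (0 : ℝ) < x := by exact_mod_cast hx.1
    have hy0 : (0 : ℝ) < y := by exact_mod_cast hy.1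
    have h1 : Continuous fun c : ℝ => (x : ℝ) ^ c :=
      Real.continuous_const_rpow hx0.ne'
    have h2 : Continuous fun c : ℝ => (y : ℝ) ^ c :=
      Real.continuous_const_rpow hy0.ne'
    exact Real.continuous_cos.comp (continuous_const.mul (h1.sub h2))
  have hfi : ∀ x ∈ Icc 1 N, ∀ y ∈ Icc 1 N,
      Integrable ((J x y).indicator (f x y)) (volume.restrict (Set.Icc p q)) := by
    intro x hx y hy
    exact ((hfc x hx y hy).integrableOn_Icc).integrable.indicator (hJm x y)
  -- the bound for the integrals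
  have hbound : ∀ x ∈ Icc 1 N, ∑ y ∈ Icc 1 N, ∫ c in Set.Icc p q, (J x y).indicator (f x y) c ≤
      (q - p) + 2 * (1 + Real.log t) / (ξ * a * H ^ (1 - 1 / p)) := by
    intro x hx
    have hHpos : 0 < H ^ (1 - 1 / p) := by positivity
    have hII : ∀ y, ∫ c in Set.Icc p q, (J x y).indicator (f x y) c = ∫ c in J x y, f x y c := by
      intro y
      rw [setIntegral_indicator (hJm x y), Set.inter_eq_self_of_subset_right (hJsub x y)]
    simp_rw [hII]
    rw [← add_sum_erase (Icc 1 N) _ hx]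
    apply add_le_add
    · rcases (J x x).eq_empty_or_nonempty with h0 | h0
      · rw [h0]
        simp
        linarith
      · obtain ⟨u, v, h1, h2, h3, -, h5⟩ := int_ord (hJord x x) (hJsub x x) h0 (f x x)
        rw [h5]
        simp only [hf, sub_self, mul_zero, Real.cos_zero, intervalIntegral.integral_const,
          smul_eq_mul, mul_one]
        linarith
    · have hh := harm_diff (Icc 1 N) N x hN1 (fun y hy => (mem_Icc.1 hy).2) (mem_Icc.1 hx).2 t hNt
      have hterm : ∀ y ∈ (Icc 1 N).erase x, ∫ c in J x y, f x y c ≤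
          1 / |(x : ℝ) - y| * (1 / (ξ * a * H ^ (1 - 1 / p))) := by
        intro y hy
        rw [mem_erase] at hy
        have hxy : (x : ℝ) - y ≠ 0 := by
          intro h
          apply hy.1
          have : (y : ℝ) = x := by linarith
          exact_mod_cast this
        have habs : 0 < |(x : ℝ) - y| := abs_pos.2 hxy
        rcases (J x y).eq_empty_or_nonempty with h0 | h0
        · rw [h0]
          simp only [Measure.restrict_empty, integral_zero_measure]
          positivity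
        · obtain ⟨u, v, h1, h2, h3, h4, h5⟩ := int_ord (hJord x y) (hJsub x y) h0 (f x y)
          rw [h5]
          have hfin : 3 / (β * (|(x : ℝ) - y| * H ^ (1 - 1 / p))) ≤
              1 / |(x : ℝ) - y| * (1 / (ξ * a * H ^ (1 - 1 / p))) := by
            rw [one_div_mul_one_div, div_le_div_iff₀ (by positivity) (by positivity)]
            have hw : 0 < ξ * a * |(x : ℝ) - y| * H ^ (1 - 1 / p) := by positivity
            have e1 : 3 * (|(x : ℝ) - y| * (ξ * a * H ^ (1 - 1 / p))) =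
              3 * (ξ * a * |(x : ℝ) - y| * H ^ (1 - 1 / p)) := by ring
            have e2 : 1 * (β * (|(x : ℝ) - y| * H ^ (1 - 1 / p))) =
              (2 * Real.pi) * (ξ * a * |(x : ℝ) - y| * H ^ (1 - 1 / p)) := by rw [hβ]; ring
            rw [e1, e2]
            apply mul_le_mul_of_nonneg_right _ hw.le
            linarith
          refine le_trans ?_ hfin
          rcases lt_or_gt_of_ne hy.1 with h | h
          · -- y < x
            have hb := off_diag (x := x) (y := y) hp hA hH hβ0 h1 h2 h3 h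
              (fun c hc1 hc2 => (h4 ⟨hc1, hc2⟩).2.2.1)
            have h6 : (y : ℝ) < x := by exact_mod_cast h
            rw [abs_of_pos (by linarith)]
            exact (le_abs_self _).trans hb
          · -- x < y
            have hb := off_diag (x := y) (y := x) hp hA hH hβ0 h1 h2 h3 h
              (fun c hc1 hc2 => (h4 ⟨hc1, hc2⟩).2.1.1)
            have h6 : (x : ℝ) < y := by exact_mod_cast h
            rw [abs_sub_comm, abs_of_pos (by linarith)]
            have e1 : ∫ c in u..v, f x y c =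
                ∫ c in u..v, Real.cos (β * ((y : ℝ) ^ c - (x : ℝ) ^ c)) := by
              congr 1
              funext c
              simp only [hf]
              rw [← Real.cos_neg]
              congr 1
              ring
            rw [e1]
            exact (le_abs_self _).trans hb
      calc ∑ y ∈ (Icc 1 N).erase x, ∫ c in J x y, f x y c
          ≤ ∑ y ∈ (Icc 1 N).erase x, 1 / |(x : ℝ) - y| * (1 / (ξ * a * H ^ (1 - 1 / p))) :=
            sum_le_sum hterm
        _ = (∑ y ∈ (Icc 1 N).erase x, 1 / |(x : ℝ) - y|) * (1 / (ξ * a * H ^ (1 - 1 / p))) := by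
            rw [sum_mul]
        _ ≤ (2 * (1 + Real.log t)) * (1 / (ξ * a * H ^ (1 - 1 / p))) :=
            mul_le_mul_of_nonneg_right hh (by positivity)
        _ = 2 * (1 + Real.log t) / (ξ * a * H ^ (1 - 1 / p)) := by ring
  -- the lower integral
  set S : ℝ → ℝ := fun c => ∑ x ∈ Icc 1 N, ∑ y ∈ Icc 1 N, (J x y).indicator (f x y) c with hS
  have hSint : Integrable S (volume.restrict (Set.Icc p q)) :=
    integrable_finsetSum _ fun x hx => integrable_finsetSum _ fun y hy => hfi x hx y hy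
  set D : ℝ := (A * H ^ (1 / q)) ^ 2 with hD
  have hD0 : 0 < D := by rw [hD]; positivity
  have hstep1 : ∫⁻ c in Set.Icc p q,
      ENNReal.ofReal (‖SS (A * H ^ (1 / c)) a c ξ‖ ^ 2 / (A * H ^ (1 / c)) ^ 2) ≤
      ∫⁻ c in Set.Icc p q, ENNReal.ofReal (S c / D) := by
    apply setLIntegral_mono' measurableSet_Icc
    intro c hc
    apply ENNReal.ofReal_le_ofReal
    have h0 : S c = ‖SS (A * H ^ (1 / c)) a c ξ‖ ^ 2 := (hsq c hc).symm
    rw [h0]
    have h1 : D ≤ (A * H ^ (1 / c)) ^ 2 := by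
      rw [hD]
      exact pow_le_pow_left₀ (hnpos q).le (hanti c q (by linarith [hc.1]) hc.2) 2
    gcongr
  have hstep2 : ∫⁻ c in Set.Icc p q, ENNReal.ofReal (S c / D) =
      ENNReal.ofReal (∫ c in Set.Icc p q, S c / D) := by
    rw [ofReal_integral_eq_lintegral_ofReal (hSint.div_const D)]
    filter_upwards [ae_restrict_mem measurableSet_Icc] with c hc
    show 0 ≤ S c / D
    have h1 : S c = ‖SS (A * H ^ (1 / c)) a c ξ‖ ^ 2 := (hsq c hc).symm
    rw [h1]
    positivity
  refine hstep1.trans ?_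
  rw [hstep2]
  apply ENNReal.ofReal_le_ofReal
  rw [integral_div]
  have hSI : ∫ c in Set.Icc p q, S c ≤ t * ((q - p) + 2 * (1 + Real.log t) / (ξ * a * H ^ (1 - 1 / p))) := by
    rw [hS, integral_finsetSum _ fun x hx => integrable_finsetSum _ fun y hy => hfi x hx y hy]
    calc ∑ x ∈ Icc 1 N, ∫ c in Set.Icc p q, ∑ y ∈ Icc 1 N, (J x y).indicator (f x y) c
        = ∑ x ∈ Icc 1 N, ∑ y ∈ Icc 1 N, ∫ c in Set.Icc p q, (J x y).indicator (f x y) c := by
          apply sum_congr rfl
          intro x hx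
          rw [integral_finsetSum _ fun y hy => hfi x hx y hy]
      _ ≤ ∑ x ∈ Icc 1 N, ((q - p) + 2 * (1 + Real.log t) / (ξ * a * H ^ (1 - 1 / p))) :=
          sum_le_sum hbound
      _ = N * ((q - p) + 2 * (1 + Real.log t) / (ξ * a * H ^ (1 - 1 / p))) := by
          rw [sum_const, Nat.card_Icc, Nat.add_sub_cancel, nsmul_eq_mul]
      _ ≤ _ := by
          have hlt : 0 ≤ Real.log t := Real.log_nonneg ht1
          have : 0 ≤ q - p := by linarith
          gcongr
  -- the powers
  have hξH : 1 ≤ ξ * H := by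
    rw [div_le_iff₀ hH0] at hξ1; exact hξ1
  set s : ℝ := 1 / (q * (1 + δ)) with hs
  have hs0 : 0 < s := by rw [hs]; positivity
  have hs1 : s ≤ 1 := by
    rw [hs, div_le_one (by positivity)]; nlinarith
  have hP1 : H ^ (-(1 / p)) ≤ (ξ * H) ^ (-s) := by
    have h0 : H ^ (-(1 / p)) ≤ H ^ (-(1 / q)) := by
      apply Real.rpow_le_rpow_of_exponent_le hH
      have : 1 / q ≤ 1 / p := one_div_le_one_div_of_le hp0 hpq
      linarith
    refine h0.trans ?_
    rw [Real.rpow_neg (by positivity), Real.rpow_neg (by positivity)]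
    apply inv_anti₀ (by positivity)
    have h1 : (ξ * H) ^ s ≤ (H ^ (1 + δ)) ^ s := by
      apply Real.rpow_le_rpow (by positivity) _ hs0.le
      calc ξ * H ≤ H ^ δ * H := by gcongr
        _ = H ^ (1 + δ) := by rw [Real.rpow_add hH0, Real.rpow_one]; ring
    have h2 : (H ^ (1 + δ)) ^ s = H ^ (1 / q) := by
      rw [← Real.rpow_mul hH0.le]
      congr 1
      rw [hs]
      field_simp
    rw [h2] at h1
    exact h1
  have hP2 : 1 / (ξ * H) ≤ (ξ * H) ^ (-s) := by
    rw [one_div, ← Real.rpow_neg_one]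
    exact Real.rpow_le_rpow_of_exponent_le hξH (by linarith)
  have hlogt : 1 + Real.log t ≤ (1 + Real.log (4 * A)) * (1 + Real.log H) := by
    have e1 : t = (4 * A) * H ^ (1 / p) := by rw [ht]; ring
    rw [e1, Real.log_mul (by positivity) (by positivity), Real.log_rpow hH0]
    have : 1 / p * Real.log H ≤ Real.log H := by
      have : 1 / p ≤ 1 := by rw [div_le_one hp0]; exact hp.le
      nlinarith
    nlinarith
  have hlogt0 : 0 ≤ 1 + Real.log t := by have := Real.log_nonneg ht1; linarith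
  have hP0 : 0 < (ξ * H) ^ (-s) := by positivity
  have hqp0 : 0 ≤ q - p := by linarith
  set w : ℝ := H ^ (2 * (1 / p - 1 / q)) with hw
  have hw0 : 0 < w := by rw [hw]; positivity
  have e2 : t * ((q - p) + 2 * (1 + Real.log t) / (ξ * a * H ^ (1 - 1 / p))) / D =
      4 / A * w * ((q - p) * H ^ (-(1 / p)) + 2 * (1 + Real.log t) / a * (1 / (ξ * H))) := by
    have f1 : w = H ^ (1 / p) * H ^ (1 / p) / (H ^ (1 / q) * H ^ (1 / q)) := by
      rw [hw, ← Real.rpow_add hH0, ← Real.rpow_add hH0, ← Real.rpow_sub hH0]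
      congr 1; ring
    have f2 : H ^ (1 - 1 / p) = H / H ^ (1 / p) := by
      rw [Real.rpow_sub hH0, Real.rpow_one]
    have f3 : H ^ (-(1 / p)) = 1 / H ^ (1 / p) := by
      rw [Real.rpow_neg hH0.le, inv_eq_one_div]
    rw [f1, f2, f3, hD, ht]
    have g1 : 0 < H ^ (1 / p) := by positivity
    have g2 : 0 < H ^ (1 / q) := by positivity
    field_simp
  calc (∫ c in Set.Icc p q, S c) / D
      ≤ t * ((q - p) + 2 * (1 + Real.log t) / (ξ * a * H ^ (1 - 1 / p))) / D := by gcongr
    _ = 4 / A * w * ((q - p) * H ^ (-(1 / p)) + 2 * (1 + Real.log t) / a * (1 / (ξ * H))) := e2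
    _ ≤ 4 * w * ((q - p) * (ξ * H) ^ (-s) +
        2 * ((1 + Real.log (4 * A)) * (1 + Real.log H)) / a * (ξ * H) ^ (-s)) := by
        have : 4 / A ≤ 4 := by rw [div_le_iff₀ hA0]; linarith
        gcongr
    _ ≤ 4 * w * ((q - p) * (1 + Real.log H) * (ξ * H) ^ (-s) +
        2 * ((1 + Real.log (4 * A)) * (1 + Real.log H)) / a * (ξ * H) ^ (-s)) := by
        have : q - p ≤ (q - p) * (1 + Real.log H) := by nlinarith
        gcongr
    _ = 4 * ((q - p) + 2 * (1 + Real.log (4 * A)) / a) * (1 + Real.log H) * w * (ξ * H) ^ (-s) := by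
        ring

end Pool.Agent.L7h22.GC
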