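import Pool.Agent.L7h70.GC.Stm

/-! Project GC (helper70): independence and Borel-Cantelli (`S_PRB`). -/

set_option autoImplicit false

namespace Pool.Agent.L7h22.GC

open Finset MeasureTheory Measure Filter
open scoped ENNReal
open Pool.Agent.L7h70.GC

theorem lintegral_fin_prod {n : ℕ} (μ : Fin n → Measure ℝ)
    [∀ i, SigmaFinite (μ i)] (f : Fin n → ℝ → ℝ≥0∞) (hf : ∀ i, Measurable (f i)) :
    ∫⁻ x : Fin n → ℝ, ∏ i, f i (x i) ∂(Measure.pi μ) = ∏ i, ∫⁻ x, f i x ∂(μ i) := by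
  induction n with
  | zero => simp
  | succ n n_ih =>
      calc
        _ = ∫⁻ x : ℝ × (Fin n → ℝ),
            f 0 x.1 * ∏ i : Fin n, f (Fin.succ i) (x.2 i)
            ∂((μ 0).prod (Measure.pi (fun i ↦ μ i.succ))) := by
          rw [← ((measurePreserving_piFinSuccAbove μ 0).symm).lintegral_comp_emb
            (MeasurableEquiv.measurableEmbedding _)]
          simp_rw [MeasurableEquiv.piFinSuccAbove_symm_apply, Fin.insertNthEquiv,
            Fin.prod_univ_succ, Fin.insertNth_zero, Equiv.coe_fn_mk, Fin.cons_succ,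
            Fin.zero_succAbove, cast_eq, Fin.cons_zero]
        _ = (∫⁻ x, f 0 x ∂μ 0)
            * ∏ i : Fin n, ∫⁻ (x : ℝ), f (Fin.succ i) x ∂(μ i.succ) := by
          rw [← n_ih (fun i => μ i.succ) (fun i => f i.succ) (fun i => hf _)]
          exact lintegral_prod_mul (hf 0).aemeasurable (Finset.measurable_prod _ (fun i _ =>
            (hf _).comp (measurable_pi_apply i))).aemeasurable
        _ = ∏ i, ∫⁻ x, f i x ∂(μ i) := by rw [Fin.prod_univ_succ]

theorem lintegral_fintype_prod {ι : Type*} [Fintype ι] (μ : ι → Measure ℝ)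
    [∀ i, SigmaFinite (μ i)] (f : ι → ℝ → ℝ≥0∞) (hf : ∀ i, Measurable (f i)) :
    ∫⁻ x : ι → ℝ, ∏ i, f i (x i) ∂(Measure.pi μ) = ∏ i, ∫⁻ x, f i x ∂(μ i) := by
  let e := (Fintype.equivFin ι).symm
  rw [← (measurePreserving_piCongrLeft _ e).lintegral_comp_emb
    (MeasurableEquiv.measurableEmbedding _)]
  simp_rw [← e.prod_comp, MeasurableEquiv.coe_piCongrLeft, Equiv.piCongrLeft_apply_apply]
  exact lintegral_fin_prod (fun i => μ (e i)) (fun i => f (e i)) (fun i => hf _)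

/-- the tail integral -/
lemma tail_int {B D K H E : ℝ} (hB : 0 < B) (hK : 0 ≤ K) (hH : 0 < H) (hE : 1 < E) :
    ∫⁻ ξ in Set.Ioc B D, ENNReal.ofReal (K * (ξ * H) ^ (-E)) ≤
      ENNReal.ofReal (K * H ^ (-E) * B ^ (1 - E) / (E - 1)) := by
  have h1 : ∫⁻ ξ in Set.Ioc B D, ENNReal.ofReal (K * (ξ * H) ^ (-E)) ≤
      ∫⁻ ξ in Set.Ioi B, ENNReal.ofReal (K * (ξ * H) ^ (-E)) :=
    lintegral_mono_set (fun x hx => hx.1)
  refine h1.trans ?_
  have h2 : ∫⁻ ξ in Set.Ioi B, ENNReal.ofReal (K * (ξ * H) ^ (-E)) =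
      ∫⁻ ξ in Set.Ioi B, ENNReal.ofReal (K * H ^ (-E) * ξ ^ (-E)) := by
    apply setLIntegral_congr_fun measurableSet_Ioi
    intro ξ hξ
    have hξ0 : 0 < ξ := hB.trans hξ
    show ENNReal.ofReal (K * (ξ * H) ^ (-E)) = ENNReal.ofReal (K * H ^ (-E) * ξ ^ (-E))
    rw [Real.mul_rpow hξ0.le hH.le]
    congr 1
    ring
  rw [h2, ← ofReal_integral_eq_lintegral_ofReal]
  · rw [integral_const_mul, integral_Ioi_rpow_of_lt (by linarith) hB]
    apply le_of_eq
    congr 1
    have e1 : -E + 1 = 1 - E := by ring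
    have e2 : E - 1 ≠ 0 := by linarith
    have e3 : 1 - E ≠ 0 := by linarith
    rw [e1]
    field_simp
    ring
  · exact (integrableOn_Ioi_rpow_of_lt (by linarith) hB).const_mul _
  · filter_upwards [ae_restrict_mem measurableSet_Ioi] with ξ hξ
    have hξ0 : 0 < ξ := hB.trans hξ
    show 0 ≤ K * H ^ (-E) * ξ ^ (-E)
    positivity

theorem s_PRB : S_PRB := by
  intro ι _ μ _ G hG e κ δ η ε hκ hε hlt hint hη
  set E : ℝ := ∑ i, e i with hE
  have hcard : (0 : ℝ) ≤ Fintype.card ι * ε := by positivity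
  have hE1 : 1 < E := by
    have : 0 < κ * (E - 1) := by linarith
    have := (pos_iff_pos_of_mul_pos this).1 hκ
    linarith
  set θ : ℝ := κ * (E - 1) - (Fintype.card ι * ε + η) with hθ
  have hθ0 : 0 < θ := by linarith
  set I : ℕ → (ι → ℝ) → ℝ≥0∞ := fun l ω =>
    ∫⁻ ξ in Set.Ioc (((2 : ℝ) ^ l) ^ (-1 + κ)) (((2 : ℝ) ^ l) ^ δ), ∏ i, G l i (ω i) ξ with hI
  have hmeas : ∀ l, Measurable fun p : (ι → ℝ) × ℝ => ∏ i, G l i (p.1 i) p.2 := by
    intro l
    apply Finset.measurable_prod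
    intro i _
    have h1 : Measurable fun p : (ι → ℝ) × ℝ => (p.1 i, p.2) :=
      ((measurable_pi_apply i).comp measurable_fst).prodMk measurable_snd
    exact (hG l i).comp h1
  have hIm : ∀ l, Measurable (I l) := by
    intro l
    exact (hmeas l).lintegral_prod_right'
  -- the expectation
  obtain ⟨L0, hL0⟩ := eventually_atTop.1 hint
  have hexp : ∀ l, L0 ≤ l → ∫⁻ ω, I l ω ∂(Measure.pi μ) ≤
      ENNReal.ofReal (1 / (E - 1) * ((2 : ℝ) ^ l) ^ (-1 - η - θ)) := by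
    intro l hl
    set H : ℝ := (2 : ℝ) ^ l with hH
    have hH0 : 0 < H := by positivity
    have hswap : ∫⁻ ω, I l ω ∂(Measure.pi μ) =
        ∫⁻ ξ in Set.Ioc (H ^ (-1 + κ)) (H ^ δ), ∫⁻ ω, ∏ i, G l i (ω i) ξ ∂(Measure.pi μ) :=
      lintegral_lintegral_swap (hmeas l).aemeasurable
    rw [hswap]
    have h1 : ∀ ξ ∈ Set.Ioc (H ^ (-1 + κ)) (H ^ δ),
        ∫⁻ ω, ∏ i, G l i (ω i) ξ ∂(Measure.pi μ) ≤
          ENNReal.ofReal ((H ^ ε) ^ (Fintype.card ι) * (ξ * H) ^ (-E)) := by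
      intro ξ hξ
      have hξ0 : 0 < ξ := (Real.rpow_pos_of_pos hH0 _).trans hξ.1
      rw [lintegral_fintype_prod μ (fun i ω => G l i ω ξ)
        (fun i => (hG l i).comp (measurable_id.prodMk measurable_const))]
      calc ∏ i, ∫⁻ ω, G l i ω ξ ∂(μ i) ≤
            ∏ i, ENNReal.ofReal (H ^ ε * (ξ * H) ^ (-(e i))) :=
            Finset.prod_le_prod' fun i _ => hL0 l hl i ξ hξ.1.le hξ.2
        _ = ENNReal.ofReal (∏ i, (H ^ ε * (ξ * H) ^ (-(e i)))) := by
            rw [ENNReal.ofReal_prod_of_nonneg]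
            intro i _
            positivity
        _ = ENNReal.ofReal ((H ^ ε) ^ (Fintype.card ι) * (ξ * H) ^ (-E)) := by
            congr 1
            rw [prod_mul_distrib, prod_const, card_univ]
            congr 1
            rw [← Real.rpow_sum_of_pos (by positivity), Finset.sum_neg_distrib]
    refine (setLIntegral_mono' measurableSet_Ioc h1).trans ?_
    refine (tail_int (Real.rpow_pos_of_pos hH0 _) (by positivity) hH0 hE1).trans ?_
    apply ENNReal.ofReal_le_ofReal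
    apply le_of_eq
    have e1 : (H ^ ε) ^ (Fintype.card ι) = H ^ (Fintype.card ι * ε) := by
      rw [← Real.rpow_natCast, ← Real.rpow_mul hH0.le]
      congr 1
      ring
    have e2 : (H ^ (-1 + κ)) ^ (1 - E) = H ^ ((-1 + κ) * (1 - E)) := by
      rw [← Real.rpow_mul hH0.le]
    rw [e1, e2, ← Real.rpow_add hH0, ← Real.rpow_add hH0]
    have e3 : (Fintype.card ι : ℝ) * ε + -E + (-1 + κ) * (1 - E) = -1 - η - θ := by
      rw [hθ]; ring
    rw [e3]
    ring
  -- summation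
  set J : ℕ → (ι → ℝ) → ℝ≥0∞ := fun m ω =>
    I (m + L0) ω * ENNReal.ofReal (((2 : ℝ) ^ (m + L0)) ^ (1 + η)) with hJ
  have hJm : ∀ m, Measurable (J m) := fun m => (hIm _).mul_const _
  have hJint : ∀ m, ∫⁻ ω, J m ω ∂(Measure.pi μ) ≤
      ENNReal.ofReal (1 / (E - 1) * ((2 : ℝ) ^ (-θ)) ^ (m + L0)) := by
    intro m
    simp only [hJ]
    rw [lintegral_mul_const _ (hIm _)]
    calc (∫⁻ ω, I (m + L0) ω ∂(Measure.pi μ)) * ENNReal.ofReal (((2 : ℝ) ^ (m + L0)) ^ (1 + η)) ≤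
          ENNReal.ofReal (1 / (E - 1) * ((2 : ℝ) ^ (m + L0)) ^ (-1 - η - θ)) *
            ENNReal.ofReal (((2 : ℝ) ^ (m + L0)) ^ (1 + η)) :=
          mul_le_mul_left (hexp (m + L0) (Nat.le_add_left _ _)) _
      _ = ENNReal.ofReal (1 / (E - 1) * ((2 : ℝ) ^ (-θ)) ^ (m + L0)) := by
          have hE2 : 0 ≤ 1 / (E - 1) := by
            have : 0 < E - 1 := by linarith
            positivity
          rw [← ENNReal.ofReal_mul (by positivity)]
          congr 1
          rw [mul_assoc, ← Real.rpow_add (by positivity)]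
          congr 1
          have e1 : -1 - η - θ + (1 + η) = -θ := by ring
          rw [e1, ← Real.rpow_natCast, ← Real.rpow_natCast, ← Real.rpow_mul (by norm_num),
            ← Real.rpow_mul (by norm_num)]
          congr 1
          ring
  have hr : (2 : ℝ) ^ (-θ) < 1 := Real.rpow_lt_one_of_one_lt_of_neg (by norm_num) (by linarith)
  have hr0 : (0 : ℝ) < (2 : ℝ) ^ (-θ) := by positivity
  have hsum : ∑' m, ∫⁻ ω, J m ω ∂(Measure.pi μ) ≠ ⊤ := by
    have h1 : Summable fun m : ℕ => 1 / (E - 1) * ((2 : ℝ) ^ (-θ)) ^ (m + L0) := by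
      apply Summable.mul_left
      exact (summable_nat_add_iff L0).2 (summable_geometric_of_lt_one hr0.le hr)
    have h2 := h1.tsum_ofReal_ne_top
    exact ne_top_of_le_ne_top h2 (ENNReal.tsum_le_tsum hJint)
  have hfin : ∫⁻ ω, ∑' m, J m ω ∂(Measure.pi μ) ≠ ⊤ := by
    rw [lintegral_tsum fun m => (hJm m).aemeasurable]
    exact hsum
  have hae := ae_lt_top' (AEMeasurable.tsum fun m => (hJm m).aemeasurable) hfin
  filter_upwards [hae] with ω hω
  have h3 := ENNReal.tendsto_atTop_zero_of_tsum_ne_top hω.ne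
  have h4 : ∀ᶠ m in atTop, J m ω < 1 := h3.eventually (gt_mem_nhds (by norm_num))
  obtain ⟨M, hM⟩ := eventually_atTop.1 h4
  filter_upwards [eventually_ge_atTop (M + L0)] with l hl
  have h5 := hM (l - L0) (by omega)
  simp only [hJ] at h5
  have e1 : l - L0 + L0 = l := by omega
  rw [e1] at h5
  have hH0 : (0 : ℝ) < (2 : ℝ) ^ l := by positivity
  have hpos : (0 : ℝ) < ((2 : ℝ) ^ l) ^ (1 + η) := by positivity
  have e2 : ENNReal.ofReal (((2 : ℝ) ^ l) ^ (-1 - η)) = 1 / ENNReal.ofReal (((2 : ℝ) ^ l) ^ (1 + η)) := by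
    rw [one_div, ← ENNReal.ofReal_inv_of_pos hpos, ← Real.rpow_neg hH0.le]
    congr 2
    ring
  rw [e2, ENNReal.le_div_iff_mul_le (Or.inl (by simpa using hpos)) (Or.inl ENNReal.ofReal_ne_top)]
  exact h5.le

end Pool.Agent.L7h22.GC
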